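import Pool.Agent.Q151.OG.ASM

/-!
# Stable limits of orthogonal Grothendieck polynomials

Problem MP_163e4a_co, Q1: the sequence of the orthogonal Grothendieck polynomials of `1 ^ m × z`
converges, for every `n` and every involution (indeed every permutation) `z` of `n` points.

The definitions are in `Pool.Agent.Q151.OG.Def`: `MX z` is the set of the symmetric complex matrices
`A` (given by their entries `x s(i, j)`, indexed by the unordered pairs) such that
`rank A_[i][j] ≤ rank z_[i][j]` for all `i, j`; `CRing` is its coordinate ring; `hser wt (MX z)` the
multigraded Hilbert series, where the coordinate `A_ij` has weight `a_i a_j`; `IsK wt (MX z) K` says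
that `K` is the Hilbert series times the product of all `1 - a_i a_j`, `i ≤ j`, and `Kpol wt (MX z)`
is the polynomial with this property; `codim z` is `N (N + 1) / 2` minus the Krull dimension of the
coordinate ring; `GO z` is `(-β) ^ (-codim z)` times the `K`-polynomial at `a_i = 1 + β x_i`, a
polynomial over the Laurent polynomials in `β`; `ones m z` is `1 ^ m × z`. Indices start at `0`, and
`rename Fin.val` writes a polynomial in `N` variables as a polynomial in `x_0, x_1, ...`.

Proof. Let `K' = K'(a_0, ..., a_N)` be the `K`-polynomial of `1 × z` and `K` that of `z`. The points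
of `MX (1 × z)` with `A_00 ≠ 0` are those whose Schur complement is in `MX z`; hence the part of
weight `(k, κ)` of the coordinate ring of `MX (1 × z)` is, for `k > |κ|`, the part of weight `κ` of
the coordinate ring of `ℂ ^ N × MX z` if `k + |κ|` is even, and `0` if it is odd. This gives
`K'(1, a) = K(a)`. Since `K'` for `1 ^ (m + 1) × z` is symmetric in the first `m + 1` variables, a
Taylor coefficient at `a = 1` which involves only `l ≤ m` variables is the same for `1 ^ m × z` and
`1 ^ (m + 1) × z`. The codimension does not increase, so it is eventually constant.
-/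

set_option autoImplicit false

namespace Pool.Agent.Results.MP_163e4a_co.StableLimits

open MvPolynomial Q151.OG

theorem result : ∀ (n : ℕ) (z : Equiv.Perm (Fin n)),
    -- the `K`-polynomials are what they should be
    (∀ m : ℕ, IsK wt (MX (ones m z)) (Kpol wt (MX (ones m z)))) ∧
    -- the codimensions are what they should be
    (∀ m : ℕ, ((codim (ones m z) : ℕ) : WithBot ℕ∞) + ringKrullDim (CRing (MX (ones m z))) =
      (((m + n) * (m + n + 1) / 2 : ℕ) : WithBot ℕ∞)) ∧
    -- each coefficient is eventually constant
    ∀ γ : ℕ →₀ ℕ, ∃ M : ℕ, ∀ m ≥ M,
      coeff γ (rename Fin.val (GO (ones m z))) = coeff γ (rename Fin.val (GO (ones M z))) :=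
  fun n z => ⟨fun m => kpol_isK (ones m z), fun m => Pool.Agent.Q277.OG.cda (m + n) (ones m z),
    fun γ => main z γ⟩

end Pool.Agent.Results.MP_163e4a_co.StableLimits
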